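import Mathlib

set_option autoImplicit false

namespace Pool.Agent.H.MP_520ea7_co

structure W (p : Prop) : Prop where
  out : p

def lab : Fin 8 → ℕ := ![2, 3, 4, 5, 6, 7, 8, 10]

theorem tree (l : Fin 8 → ℕ) (hp : ∀ i, 1 ≤ l i) (hd : ∀ i j, i ≠ j → l i = l j → False)
    (hn : ∀ i j w, (i ≠ j ∧ ∀ k, lab k ≠ lab i + lab j) → l w = l i + l j → False)
    (e01 : W (l 2 = l 0 + l 1 ∨ l 3 = l 0 + l 1 ∨ l 4 = l 0 + l 1 ∨ l 5 = l 0 + l 1 ∨ l 6 = l 0 + l 1 ∨ l 7 = l 0 + l 1))
    (e02 : W (l 1 = l 0 + l 2 ∨ l 3 = l 0 + l 2 ∨ l 4 = l 0 + l 2 ∨ l 5 = l 0 + l 2 ∨ l 6 = l 0 + l 2 ∨ l 7 = l 0 + l 2))
    (e03 : W (l 1 = l 0 + l 3 ∨ l 2 = l 0 + l 3 ∨ l 4 = l 0 + l 3 ∨ l 5 = l 0 + l 3 ∨ l 6 = l 0 + l 3 ∨ l 7 = l 0 + l 3))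
    (e04 : W (l 1 = l 0 + l 4 ∨ l 2 = l 0 + l 4 ∨ l 3 = l 0 + l 4 ∨ l 5 = l 0 + l 4 ∨ l 6 = l 0 + l 4 ∨ l 7 = l 0 + l 4))
    (e06 : W (l 1 = l 0 + l 6 ∨ l 2 = l 0 + l 6 ∨ l 3 = l 0 + l 6 ∨ l 4 = l 0 + l 6 ∨ l 5 = l 0 + l 6 ∨ l 7 = l 0 + l 6))
    (e12 : W (l 0 = l 1 + l 2 ∨ l 3 = l 1 + l 2 ∨ l 4 = l 1 + l 2 ∨ l 5 = l 1 + l 2 ∨ l 6 = l 1 + l 2 ∨ l 7 = l 1 + l 2))
    (e13 : W (l 0 = l 1 + l 3 ∨ l 2 = l 1 + l 3 ∨ l 4 = l 1 + l 3 ∨ l 5 = l 1 + l 3 ∨ l 6 = l 1 + l 3 ∨ l 7 = l 1 + l 3))
    (e15 : W (l 0 = l 1 + l 5 ∨ l 2 = l 1 + l 5 ∨ l 3 = l 1 + l 5 ∨ l 4 = l 1 + l 5 ∨ l 6 = l 1 + l 5 ∨ l 7 = l 1 + l 5))
    (e24 : W (l 0 = l 2 + l 4 ∨ l 1 = l 2 + l 4 ∨ l 3 = l 2 + l 4 ∨ l 5 = l 2 + l 4 ∨ l 6 = l 2 + l 4 ∨ l 7 = l 2 + l 4))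
    (h1 : W (l 0 = 1 ∨ l 1 = 1 ∨ l 2 = 1 ∨ l 3 = 1 ∨ l 4 = 1 ∨ l 5 = 1 ∨ l 6 = 1 ∨ l 7 = 1)) : False := by
  have p0 := hp 0
  have p1 := hp 1
  have p2 := hp 2
  have p3 := hp 3
  have p4 := hp 4
  have p5 := hp 5
  have p6 := hp 6
  have p7 := hp 7
  rcases e01.1 with h | h | h | h | h | h
  · rcases e24.1 with h | h | h | h | h | h
    · omega
    · omega
    · rcases e04.1 with h | h | h | h | h | h
      · rcases e15.1 with h | h | h | h | h | h
        · omega
        · exact hd 0 5 (by decide) (by omega)
        · exact hd 1 5 (by decide) (by omega)
        · omega
        · rcases e06.1 with h | h | h | h | h | h
          · omega
          · omega
          · exact hd 4 5 (by decide) (by omega)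
          · omega
          · omega
          · exact hn 2 5 7 (by decide) (by omega)
        · rcases e03.1 with h | h | h | h | h | h
          · omega
          · omega
          · omega
          · exact hn 2 3 7 (by decide) (by omega)
          · rcases e02.1 with h | h | h | h | h | h
            · omega
            · exact hd 0 4 (by decide) (by omega)
            · omega
            · exact hn 4 5 6 (by decide) (by omega)
            · omega
            · exact hn 4 5 2 (by decide) (by omega)
          · exact hd 2 5 (by decide) (by omega)
      · exact hd 1 4 (by decide) (by omega)
      · omega
      · rcases e03.1 with h | h | h | h | h | h
        · omega
        · omega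
        · omega
        · omega
        · exact hn 2 5 6 (by decide) (by omega)
        · exact hn 2 5 7 (by decide) (by omega)
      · exact hn 1 6 3 (by decide) (by omega)
      · exact hn 1 7 3 (by decide) (by omega)
    · rcases e04.1 with h | h | h | h | h | h
      · rcases e12.1 with h | h | h | h | h | h
        · omega
        · exact hn 0 5 3 (by decide) (by omega)
        · omega
        · omega
        · exact hn 0 5 6 (by decide) (by omega)
        · exact hn 0 5 7 (by decide) (by omega)
      · exact hd 1 4 (by decide) (by omega)
      · rcases e13.1 with h | h | h | h | h | h
        · omega
        · omega
        · omega
        · rcases e15.1 with h | h | h | h | h | h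
          · omega
          · omega
          · omega
          · omega
          · rcases e06.1 with h | h | h | h | h | h
            · omega
            · omega
            · omega
            · omega
            · omega
            · exact hn 2 5 7 (by decide) (by omega)
          · rcases e12.1 with h | h | h | h | h | h
            · omega
            · exact hn 3 4 7 (by decide) (by omega)
            · rcases e02.1 with h | h | h | h | h | h
              · omega
              · omega
              · exact hd 0 1 (by decide) (by omega)
              · omega
              · exact hn 1 6 3 (by decide) (by omega)
              · omega
            · exact hd 1 4 (by decide) (by omega)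
            · exact hn 4 6 7 (by decide) (by omega)
            · omega
        · exact hd 5 6 (by decide) (by omega)
        · exact hd 5 7 (by decide) (by omega)
      · omega
      · exact hn 1 6 5 (by decide) (by omega)
      · exact hn 1 7 5 (by decide) (by omega)
    · rcases e04.1 with h | h | h | h | h | h
      · rcases e13.1 with h | h | h | h | h | h
        · omega
        · exact hd 0 3 (by decide) (by omega)
        · omega
        · rcases e15.1 with h | h | h | h | h | h
          · omega
          · omega
          · omega
          · omega
          · omega
          · exact hn 3 6 7 (by decide) (by omega)
        · exact hd 1 3 (by decide) (by omega)
        · rcases e15.1 with h | h | h | h | h | h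
          · omega
          · exact hd 0 5 (by decide) (by omega)
          · exact hn 5 6 7 (by decide) (by omega)
          · omega
          · exact hd 1 5 (by decide) (by omega)
          · exact hd 3 5 (by decide) (by omega)
      · exact hd 1 4 (by decide) (by omega)
      · rcases e06.1 with h | h | h | h | h | h
        · omega
        · omega
        · omega
        · omega
        · exact hn 2 3 5 (by decide) (by omega)
        · exact hn 2 3 7 (by decide) (by omega)
      · rcases e06.1 with h | h | h | h | h | h
        · omega
        · omega
        · exact hn 2 5 3 (by decide) (by omega)
        · omega
        · omega
        · exact hn 2 5 7 (by decide) (by omega)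
      · omega
      · exact hn 1 7 6 (by decide) (by omega)
    · rcases e04.1 with h | h | h | h | h | h
      · rcases e12.1 with h | h | h | h | h | h
        · omega
        · exact hn 0 7 3 (by decide) (by omega)
        · omega
        · exact hn 0 7 5 (by decide) (by omega)
        · exact hn 0 7 6 (by decide) (by omega)
        · omega
      · exact hd 1 4 (by decide) (by omega)
      · rcases e13.1 with h | h | h | h | h | h
        · omega
        · omega
        · omega
        · exact hd 5 7 (by decide) (by omega)
        · exact hd 6 7 (by decide) (by omega)
        · rcases e02.1 with h | h | h | h | h | h
          · omega
          · exact hd 2 4 (by decide) (by omega)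
          · rcases e03.1 with h | h | h | h | h | h
            · omega
            · omega
            · omega
            · rcases e06.1 with h | h | h | h | h | h
              · exact hn 5 6 7 (by decide) (by omega)
              · exact hd 1 6 (by decide) (by omega)
              · exact hd 4 6 (by decide) (by omega)
              · exact hd 2 6 (by decide) (by omega)
              · exact hd 3 6 (by decide) (by omega)
              · exact hn 1 4 6 (by decide) (by omega)
            · rcases e06.1 with h | h | h | h | h | h
              · omega
              · omega
              · omega
              · omega
              · rcases e15.1 with h | h | h | h | h | h
                · omega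
                · omega
                · omega
                · omega
                · omega
                · omega
              · exact hn 1 4 6 (by decide) (by omega)
            · exact hd 0 1 (by decide) (by omega)
          · rcases e06.1 with h | h | h | h | h | h
            · rcases e12.1 with h | h | h | h | h | h
              · omega
              · exact hn 2 6 4 (by decide) (by omega)
              · exact hn 5 6 4 (by decide) (by omega)
              · omega
              · omega
              · exact hd 1 4 (by decide) (by omega)
            · exact hd 1 6 (by decide) (by omega)
            · exact hd 4 6 (by decide) (by omega)
            · exact hn 5 6 7 (by decide) (by omega)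
            · exact hd 2 6 (by decide) (by omega)
            · exact hn 1 4 6 (by decide) (by omega)
          · rcases e03.1 with h | h | h | h | h | h
            · rcases e12.1 with h | h | h | h | h | h
              · omega
              · omega
              · omega
              · exact hn 3 6 5 (by decide) (by omega)
              · omega
              · omega
            · exact hd 1 3 (by decide) (by omega)
            · omega
            · rcases e15.1 with h | h | h | h | h | h
              · omega
              · omega
              · omega
              · omega
              · omega
              · omega
            · exact hd 1 4 (by decide) (by omega)
            · exact hd 0 1 (by decide) (by omega)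
          · exact hd 0 4 (by decide) (by omega)
      · rcases e15.1 with h | h | h | h | h | h
        · omega
        · omega
        · exact hd 3 7 (by decide) (by omega)
        · omega
        · exact hd 6 7 (by decide) (by omega)
        · rcases e02.1 with h | h | h | h | h | h
          · omega
          · rcases e06.1 with h | h | h | h | h | h
            · rcases e12.1 with h | h | h | h | h | h
              · omega
              · omega
              · exact hn 3 6 4 (by decide) (by omega)
              · exact hn 2 6 4 (by decide) (by omega)
              · omega
              · exact hd 1 4 (by decide) (by omega)
            · exact hd 1 6 (by decide) (by omega)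
            · exact hd 2 6 (by decide) (by omega)
            · exact hn 3 6 7 (by decide) (by omega)
            · exact hd 4 6 (by decide) (by omega)
            · exact hn 1 4 6 (by decide) (by omega)
          · rcases e03.1 with h | h | h | h | h | h
            · rcases e12.1 with h | h | h | h | h | h
              · omega
              · omega
              · omega
              · exact hd 0 3 (by decide) (by omega)
              · exact hn 3 4 6 (by decide) (by omega)
              · omega
            · exact hd 1 3 (by decide) (by omega)
            · exact hd 2 3 (by decide) (by omega)
            · exact hd 3 4 (by decide) (by omega)
            · rcases e06.1 with h | h | h | h | h | h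
              · rcases e12.1 with h | h | h | h | h | h
                · omega
                · omega
                · omega
                · omega
                · omega
                · omega
              · exact hd 1 6 (by decide) (by omega)
              · omega
              · exact hd 1 3 (by decide) (by omega)
              · exact hd 2 3 (by decide) (by omega)
              · exact hn 1 4 6 (by decide) (by omega)
            · exact hn 1 4 3 (by decide) (by omega)
          · exact hd 2 4 (by decide) (by omega)
          · rcases e03.1 with h | h | h | h | h | h
            · rcases e12.1 with h | h | h | h | h | h
              · omega
              · omega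
              · exact hn 1 6 5 (by decide) (by omega)
              · exact hn 2 3 4 (by decide) (by omega)
              · omega
              · exact hd 1 4 (by decide) (by omega)
            · exact hd 1 3 (by decide) (by omega)
            · exact hn 3 6 7 (by decide) (by omega)
            · exact hd 3 4 (by decide) (by omega)
            · exact hd 2 3 (by decide) (by omega)
            · exact hn 1 4 3 (by decide) (by omega)
          · exact hd 0 4 (by decide) (by omega)
      · exact hn 1 6 7 (by decide) (by omega)
      · omega
  · rcases e02.1 with h | h | h | h | h | h
    · rcases e15.1 with h | h | h | h | h | h
      · omega
      · omega
      · exact hd 0 5 (by decide) (by omega)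
      · rcases e04.1 with h | h | h | h | h | h
        · omega
        · omega
        · omega
        · omega
        · exact hn 3 5 6 (by decide) (by omega)
        · exact hn 3 5 7 (by decide) (by omega)
      · rcases e06.1 with h | h | h | h | h | h
        · omega
        · omega
        · omega
        · exact hn 3 5 4 (by decide) (by omega)
        · omega
        · exact hn 3 5 7 (by decide) (by omega)
      · rcases e04.1 with h | h | h | h | h | h
        · exact hd 2 4 (by decide) (by omega)
        · rcases e12.1 with h | h | h | h | h | h
          · omega
          · omega
          · omega
          · exact hn 3 4 5 (by decide) (by omega)
          · exact hn 3 4 6 (by decide) (by omega)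
          · exact hd 2 5 (by decide) (by omega)
        · exact hd 1 4 (by decide) (by omega)
        · exact hn 3 4 7 (by decide) (by omega)
        · rcases e06.1 with h | h | h | h | h | h
          · exact hd 2 6 (by decide) (by omega)
          · rcases e12.1 with h | h | h | h | h | h
            · omega
            · omega
            · omega
            · exact hn 3 6 5 (by decide) (by omega)
            · omega
            · exact hd 2 5 (by decide) (by omega)
          · exact hd 1 6 (by decide) (by omega)
          · omega
          · exact hn 3 6 7 (by decide) (by omega)
          · exact hn 2 5 6 (by decide) (by omega)
        · exact hn 2 5 4 (by decide) (by omega)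
    · exact hd 1 2 (by decide) (by omega)
    · rcases e03.1 with h | h | h | h | h | h
      · omega
      · rcases e04.1 with h | h | h | h | h | h
        · omega
        · omega
        · omega
        · rcases e15.1 with h | h | h | h | h | h
          · omega
          · omega
          · omega
          · omega
          · exact hn 3 4 6 (by decide) (by omega)
          · exact hn 3 4 7 (by decide) (by omega)
        · rcases e24.1 with h | h | h | h | h | h
          · omega
          · omega
          · omega
          · exact hn 3 6 5 (by decide) (by omega)
          · omega
          · exact hn 3 6 7 (by decide) (by omega)
        · rcases e24.1 with h | h | h | h | h | h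
          · omega
          · omega
          · omega
          · exact hn 3 7 5 (by decide) (by omega)
          · exact hn 3 7 6 (by decide) (by omega)
          · omega
      · exact hd 2 3 (by decide) (by omega)
      · rcases e04.1 with h | h | h | h | h | h
        · rcases e13.1 with h | h | h | h | h | h
          · omega
          · omega
          · omega
          · omega
          · exact hn 4 5 6 (by decide) (by omega)
          · exact hn 4 5 7 (by decide) (by omega)
        · omega
        · exact hd 1 4 (by decide) (by omega)
        · exact hd 1 2 (by decide) (by omega)
        · rcases e06.1 with h | h | h | h | h | h
          · rcases e12.1 with h | h | h | h | h | h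
            · omega
            · exact hd 0 2 (by decide) (by omega)
            · omega
            · exact hn 2 6 3 (by decide) (by omega)
            · omega
            · exact hn 4 6 7 (by decide) (by omega)
          · omega
          · exact hd 1 6 (by decide) (by omega)
          · omega
          · exact hd 1 4 (by decide) (by omega)
          · rcases e15.1 with h | h | h | h | h | h
            · omega
            · exact hn 3 5 4 (by decide) (by omega)
            · omega
            · exact hn 3 5 6 (by decide) (by omega)
            · exact hn 3 5 7 (by decide) (by omega)
            · rcases e12.1 with h | h | h | h | h | h
              · exact hn 2 6 5 (by decide) (by omega)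
              · exact hd 0 1 (by decide) (by omega)
              · exact hd 0 1 (by decide) (by omega)
              · rcases e13.1 with h | h | h | h | h | h
                · omega
                · omega
                · omega
                · omega
                · rcases e24.1 with h | h | h | h | h | h
                  · omega
                  · omega
                  · omega
                  · omega
                  · omega
                  · have := h1.1; omega
                · omega
              · exact hd 2 3 (by decide) (by omega)
              · exact hd 2 5 (by decide) (by omega)
        · rcases e06.1 with h | h | h | h | h | h
          · rcases e12.1 with h | h | h | h | h | h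
            · omega
            · exact hd 0 2 (by decide) (by omega)
            · omega
            · exact hn 2 6 3 (by decide) (by omega)
            · omega
            · exact hd 0 6 (by decide) (by omega)
          · rcases e12.1 with h | h | h | h | h | h
            · omega
            · omega
            · exact hd 0 1 (by decide) (by omega)
            · exact hd 0 6 (by decide) (by omega)
            · omega
            · exact hn 1 6 4 (by decide) (by omega)
          · exact hd 1 6 (by decide) (by omega)
          · exact hd 2 6 (by decide) (by omega)
          · exact hd 3 6 (by decide) (by omega)
          · exact hd 4 6 (by decide) (by omega)
      · rcases e04.1 with h | h | h | h | h | h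
        · rcases e13.1 with h | h | h | h | h | h
          · omega
          · omega
          · omega
          · exact hn 4 6 5 (by decide) (by omega)
          · omega
          · exact hn 4 6 7 (by decide) (by omega)
        · omega
        · exact hd 1 4 (by decide) (by omega)
        · rcases e15.1 with h | h | h | h | h | h
          · omega
          · omega
          · omega
          · omega
          · omega
          · exact hn 2 6 7 (by decide) (by omega)
        · exact hd 1 2 (by decide) (by omega)
        · rcases e06.1 with h | h | h | h | h | h
          · omega
          · rcases e12.1 with h | h | h | h | h | h
            · omega
            · omega
            · exact hd 0 1 (by decide) (by omega)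
            · exact hn 3 6 5 (by decide) (by omega)
            · omega
            · exact hn 1 6 4 (by decide) (by omega)
          · omega
          · exact hd 2 6 (by decide) (by omega)
          · rcases e15.1 with h | h | h | h | h | h
            · omega
            · exact hn 3 5 4 (by decide) (by omega)
            · omega
            · exact hn 1 6 2 (by decide) (by omega)
            · omega
            · exact hn 1 6 4 (by decide) (by omega)
          · exact hd 2 3 (by decide) (by omega)
      · rcases e04.1 with h | h | h | h | h | h
        · rcases e13.1 with h | h | h | h | h | h
          · omega
          · omega
          · omega
          · exact hn 4 7 5 (by decide) (by omega)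
          · exact hn 4 7 6 (by decide) (by omega)
          · omega
        · omega
        · exact hd 1 4 (by decide) (by omega)
        · rcases e15.1 with h | h | h | h | h | h
          · omega
          · omega
          · omega
          · omega
          · exact hn 2 7 6 (by decide) (by omega)
          · omega
        · rcases e06.1 with h | h | h | h | h | h
          · rcases e12.1 with h | h | h | h | h | h
            · omega
            · exact hd 0 2 (by decide) (by omega)
            · omega
            · exact hn 4 6 5 (by decide) (by omega)
            · omega
            · exact hn 2 6 3 (by decide) (by omega)
          · omega
          · exact hd 1 6 (by decide) (by omega)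
          · omega
          · rcases e15.1 with h | h | h | h | h | h
            · omega
            · omega
            · omega
            · omega
            · omega
            · omega
          · exact hd 1 4 (by decide) (by omega)
        · exact hd 1 2 (by decide) (by omega)
    · rcases e15.1 with h | h | h | h | h | h
      · omega
      · omega
      · omega
      · exact hn 2 3 4 (by decide) (by omega)
      · exact hn 2 3 6 (by decide) (by omega)
      · exact hn 2 3 7 (by decide) (by omega)
    · rcases e03.1 with h | h | h | h | h | h
      · omega
      · rcases e24.1 with h | h | h | h | h | h
        · omega
        · omega
        · omega
        · rcases e04.1 with h | h | h | h | h | h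
          · rcases e12.1 with h | h | h | h | h | h
            · omega
            · omega
            · omega
            · omega
            · omega
            · exact hn 0 5 7 (by decide) (by omega)
          · exact hd 3 4 (by decide) (by omega)
          · exact hd 1 4 (by decide) (by omega)
          · omega
          · exact hd 2 4 (by decide) (by omega)
          · exact hn 3 7 5 (by decide) (by omega)
        · exact hd 0 4 (by decide) (by omega)
        · rcases e04.1 with h | h | h | h | h | h
          · rcases e12.1 with h | h | h | h | h | h
            · omega
            · omega
            · omega
            · exact hn 0 7 5 (by decide) (by omega)
            · omega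
            · omega
          · exact hd 3 4 (by decide) (by omega)
          · exact hd 1 4 (by decide) (by omega)
          · exact hn 3 5 7 (by decide) (by omega)
          · exact hd 2 4 (by decide) (by omega)
          · omega
      · rcases e24.1 with h | h | h | h | h | h
        · omega
        · omega
        · omega
        · exact hn 3 6 5 (by decide) (by omega)
        · omega
        · exact hn 3 6 7 (by decide) (by omega)
      · rcases e04.1 with h | h | h | h | h | h
        · rcases e12.1 with h | h | h | h | h | h
          · omega
          · exact hd 0 2 (by decide) (by omega)
          · omega
          · exact hn 4 6 5 (by decide) (by omega)
          · omega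
          · exact hn 4 6 7 (by decide) (by omega)
        · rcases e12.1 with h | h | h | h | h | h
          · omega
          · omega
          · omega
          · exact hd 0 4 (by decide) (by omega)
          · exact hd 0 1 (by decide) (by omega)
          · exact hn 3 4 7 (by decide) (by omega)
        · exact hd 1 4 (by decide) (by omega)
        · exact hd 3 4 (by decide) (by omega)
        · exact hd 2 4 (by decide) (by omega)
        · rcases e06.1 with h | h | h | h | h | h
          · rcases e12.1 with h | h | h | h | h | h
            · omega
            · exact hd 0 2 (by decide) (by omega)
            · exact hn 1 6 7 (by decide) (by omega)
            · exact hn 2 6 3 (by decide) (by omega)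
            · omega
            · exact hn 2 6 4 (by decide) (by omega)
          · omega
          · exact hd 1 6 (by decide) (by omega)
          · rcases e24.1 with h | h | h | h | h | h
            · omega
            · exact hn 2 7 3 (by decide) (by omega)
            · exact hn 2 6 1 (by decide) (by omega)
            · exact hn 2 6 3 (by decide) (by omega)
            · omega
            · exact hd 0 2 (by decide) (by omega)
          · exact hd 1 2 (by decide) (by omega)
          · exact hd 4 6 (by decide) (by omega)
      · exact hd 2 3 (by decide) (by omega)
      · rcases e04.1 with h | h | h | h | h | h
        · rcases e12.1 with h | h | h | h | h | h
          · omega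
          · exact hd 0 2 (by decide) (by omega)
          · omega
          · exact hn 4 6 5 (by decide) (by omega)
          · omega
          · exact hn 4 6 7 (by decide) (by omega)
        · rcases e12.1 with h | h | h | h | h | h
          · omega
          · omega
          · omega
          · exact hn 3 4 5 (by decide) (by omega)
          · exact hd 0 1 (by decide) (by omega)
          · exact hd 0 4 (by decide) (by omega)
        · exact hd 1 4 (by decide) (by omega)
        · rcases e15.1 with h | h | h | h | h | h
          · omega
          · exact hn 3 4 2 (by decide) (by omega)
          · omega
          · omega
          · exact hn 1 4 2 (by decide) (by omega)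
          · exact hd 0 4 (by decide) (by omega)
        · exact hd 2 4 (by decide) (by omega)
        · exact hd 3 4 (by decide) (by omega)
    · rcases e03.1 with h | h | h | h | h | h
      · omega
      · rcases e24.1 with h | h | h | h | h | h
        · omega
        · omega
        · omega
        · rcases e04.1 with h | h | h | h | h | h
          · rcases e06.1 with h | h | h | h | h | h
            · exact hd 4 6 (by decide) (by omega)
            · exact hd 3 6 (by decide) (by omega)
            · exact hd 1 6 (by decide) (by omega)
            · exact hn 6 7 5 (by decide) (by omega)
            · exact hn 3 4 6 (by decide) (by omega)
            · exact hd 2 6 (by decide) (by omega)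
          · exact hd 3 4 (by decide) (by omega)
          · exact hd 1 4 (by decide) (by omega)
          · omega
          · exact hn 3 6 5 (by decide) (by omega)
          · exact hd 2 4 (by decide) (by omega)
        · rcases e06.1 with h | h | h | h | h | h
          · omega
          · omega
          · omega
          · omega
          · exact hn 4 7 5 (by decide) (by omega)
          · omega
        · exact hd 0 4 (by decide) (by omega)
      · rcases e24.1 with h | h | h | h | h | h
        · omega
        · omega
        · omega
        · exact hn 3 7 5 (by decide) (by omega)
        · exact hn 3 7 6 (by decide) (by omega)
        · omega
      · rcases e04.1 with h | h | h | h | h | h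
        · rcases e12.1 with h | h | h | h | h | h
          · omega
          · exact hd 0 2 (by decide) (by omega)
          · omega
          · exact hn 4 7 5 (by decide) (by omega)
          · exact hn 4 7 6 (by decide) (by omega)
          · omega
        · rcases e12.1 with h | h | h | h | h | h
          · omega
          · omega
          · omega
          · exact hd 0 4 (by decide) (by omega)
          · exact hn 3 4 6 (by decide) (by omega)
          · exact hd 0 1 (by decide) (by omega)
        · exact hd 1 4 (by decide) (by omega)
        · exact hd 3 4 (by decide) (by omega)
        · rcases e06.1 with h | h | h | h | h | h
          · rcases e12.1 with h | h | h | h | h | h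
            · omega
            · exact hd 0 2 (by decide) (by omega)
            · omega
            · exact hn 2 6 3 (by decide) (by omega)
            · omega
            · omega
          · rcases e12.1 with h | h | h | h | h | h
            · omega
            · omega
            · omega
            · omega
            · omega
            · exact hd 0 1 (by decide) (by omega)
          · exact hd 1 6 (by decide) (by omega)
          · omega
          · exact hd 1 4 (by decide) (by omega)
          · exact hd 2 6 (by decide) (by omega)
        · exact hd 2 4 (by decide) (by omega)
      · rcases e04.1 with h | h | h | h | h | h
        · rcases e12.1 with h | h | h | h | h | h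
          · omega
          · exact hd 0 2 (by decide) (by omega)
          · omega
          · exact hn 4 7 5 (by decide) (by omega)
          · exact hn 4 7 6 (by decide) (by omega)
          · omega
        · rcases e12.1 with h | h | h | h | h | h
          · omega
          · omega
          · omega
          · exact hn 3 4 5 (by decide) (by omega)
          · exact hd 0 4 (by decide) (by omega)
          · exact hd 0 1 (by decide) (by omega)
        · exact hd 1 4 (by decide) (by omega)
        · rcases e15.1 with h | h | h | h | h | h
          · omega
          · exact hn 3 4 2 (by decide) (by omega)
          · omega
          · omega
          · exact hd 0 4 (by decide) (by omega)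
          · exact hn 1 4 2 (by decide) (by omega)
        · exact hd 3 4 (by decide) (by omega)
        · exact hd 2 4 (by decide) (by omega)
      · exact hd 2 3 (by decide) (by omega)
  · rcases e24.1 with h | h | h | h | h | h
    · omega
    · omega
    · rcases e02.1 with h | h | h | h | h | h
      · rcases e03.1 with h | h | h | h | h | h
        · omega
        · omega
        · omega
        · exact hn 1 4 5 (by decide) (by omega)
        · exact hn 1 4 6 (by decide) (by omega)
        · exact hn 1 4 7 (by decide) (by omega)
      · omega
      · exact hd 1 2 (by decide) (by omega)
      · rcases e03.1 with h | h | h | h | h | h
        · omega
        · omega
        · omega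
        · omega
        · exact hn 4 5 6 (by decide) (by omega)
        · exact hn 4 5 7 (by decide) (by omega)
      · exact hn 1 6 3 (by decide) (by omega)
      · exact hn 1 7 3 (by decide) (by omega)
    · rcases e02.1 with h | h | h | h | h | h
      · rcases e12.1 with h | h | h | h | h | h
        · omega
        · rcases e13.1 with h | h | h | h | h | h
          · omega
          · omega
          · omega
          · omega
          · exact hn 2 5 6 (by decide) (by omega)
          · exact hn 2 5 7 (by decide) (by omega)
        · exact hd 0 2 (by decide) (by omega)
        · omega
        · rcases e15.1 with h | h | h | h | h | h
          · omega
          · omega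
          · exact hn 4 6 3 (by decide) (by omega)
          · omega
          · omega
          · exact hn 4 6 7 (by decide) (by omega)
        · exact hn 0 7 5 (by decide) (by omega)
      · rcases e13.1 with h | h | h | h | h | h
        · omega
        · omega
        · omega
        · rcases e12.1 with h | h | h | h | h | h
          · rcases e03.1 with h | h | h | h | h | h
            · omega
            · omega
            · omega
            · omega
            · exact hn 2 5 6 (by decide) (by omega)
            · exact hn 2 5 7 (by decide) (by omega)
          · exact hd 0 1 (by decide) (by omega)
          · exact hd 0 2 (by decide) (by omega)
          · omega
          · rcases e15.1 with h | h | h | h | h | h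
            · omega
            · omega
            · omega
            · omega
            · omega
            · exact hn 4 6 7 (by decide) (by omega)
          · exact hn 0 7 5 (by decide) (by omega)
        · exact hd 5 6 (by decide) (by omega)
        · exact hd 5 7 (by decide) (by omega)
      · exact hd 1 2 (by decide) (by omega)
      · omega
      · exact hn 1 6 5 (by decide) (by omega)
      · exact hn 1 7 5 (by decide) (by omega)
    · rcases e12.1 with h | h | h | h | h | h
      · rcases e04.1 with h | h | h | h | h | h
        · omega
        · omega
        · exact hn 1 6 3 (by decide) (by omega)
        · exact hn 1 6 5 (by decide) (by omega)
        · omega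
        · exact hn 1 6 7 (by decide) (by omega)
      · rcases e03.1 with h | h | h | h | h | h
        · omega
        · omega
        · omega
        · exact hd 5 6 (by decide) (by omega)
        · rcases e02.1 with h | h | h | h | h | h
          · rcases e06.1 with h | h | h | h | h | h
            · omega
            · omega
            · omega
            · omega
            · exact hn 1 4 5 (by decide) (by omega)
            · exact hn 1 4 7 (by decide) (by omega)
          · exact hd 0 1 (by decide) (by omega)
          · exact hd 1 2 (by decide) (by omega)
          · rcases e06.1 with h | h | h | h | h | h
            · omega
            · omega
            · omega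
            · omega
            · omega
            · exact hn 4 5 7 (by decide) (by omega)
          · omega
          · exact hn 1 7 6 (by decide) (by omega)
        · exact hd 6 7 (by decide) (by omega)
      · exact hd 0 2 (by decide) (by omega)
      · exact hn 0 5 6 (by decide) (by omega)
      · omega
      · exact hn 0 7 6 (by decide) (by omega)
    · rcases e02.1 with h | h | h | h | h | h
      · rcases e12.1 with h | h | h | h | h | h
        · omega
        · rcases e13.1 with h | h | h | h | h | h
          · omega
          · omega
          · omega
          · exact hn 2 7 5 (by decide) (by omega)
          · exact hn 2 7 6 (by decide) (by omega)
          · omega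
        · exact hd 0 2 (by decide) (by omega)
        · exact hn 0 5 7 (by decide) (by omega)
        · rcases e06.1 with h | h | h | h | h | h
          · omega
          · omega
          · exact hd 3 7 (by decide) (by omega)
          · omega
          · exact hd 5 7 (by decide) (by omega)
          · rcases e13.1 with h | h | h | h | h | h
            · omega
            · omega
            · exact hd 0 3 (by decide) (by omega)
            · rcases e03.1 with h | h | h | h | h | h
              · exact hd 2 3 (by decide) (by omega)
              · exact hn 0 5 6 (by decide) (by omega)
              · exact hd 1 3 (by decide) (by omega)
              · omega
              · exact hn 2 6 5 (by decide) (by omega)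
              · exact hd 3 6 (by decide) (by omega)
            · exact hd 2 3 (by decide) (by omega)
            · exact hd 1 3 (by decide) (by omega)
        · omega
      · rcases e13.1 with h | h | h | h | h | h
        · omega
        · omega
        · omega
        · exact hd 5 7 (by decide) (by omega)
        · exact hd 6 7 (by decide) (by omega)
        · rcases e12.1 with h | h | h | h | h | h
          · rcases e03.1 with h | h | h | h | h | h
            · omega
            · omega
            · omega
            · exact hn 2 7 5 (by decide) (by omega)
            · exact hn 2 7 6 (by decide) (by omega)
            · omega
          · exact hd 0 1 (by decide) (by omega)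
          · exact hd 0 2 (by decide) (by omega)
          · exact hn 0 5 7 (by decide) (by omega)
          · rcases e06.1 with h | h | h | h | h | h
            · omega
            · omega
            · omega
            · omega
            · exact hd 5 7 (by decide) (by omega)
            · rcases e15.1 with h | h | h | h | h | h
              · exact hn 5 6 3 (by decide) (by omega)
              · exact hn 4 5 3 (by decide) (by omega)
              · rcases e03.1 with h | h | h | h | h | h
                · omega
                · omega
                · omega
                · omega
                · exact hn 0 5 2 (by decide) (by omega)
                · exact hd 0 1 (by decide) (by omega)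
              · exact hd 0 5 (by decide) (by omega)
              · exact hd 2 5 (by decide) (by omega)
              · exact hd 3 5 (by decide) (by omega)
          · omega
      · exact hd 1 2 (by decide) (by omega)
      · rcases e15.1 with h | h | h | h | h | h
        · omega
        · omega
        · exact hd 3 7 (by decide) (by omega)
        · omega
        · exact hd 6 7 (by decide) (by omega)
        · rcases e04.1 with h | h | h | h | h | h
          · omega
          · rcases e12.1 with h | h | h | h | h | h
            · omega
            · rcases e06.1 with h | h | h | h | h | h
              · exact hn 5 6 3 (by decide) (by omega)
              · exact hd 4 6 (by decide) (by omega)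
              · exact hn 1 4 6 (by decide) (by omega)
              · exact hd 1 6 (by decide) (by omega)
              · exact hd 2 6 (by decide) (by omega)
              · exact hd 3 6 (by decide) (by omega)
            · omega
            · exact hd 0 1 (by decide) (by omega)
            · rcases e03.1 with h | h | h | h | h | h
              · exact hn 3 5 6 (by decide) (by omega)
              · exact hd 3 4 (by decide) (by omega)
              · exact hd 1 3 (by decide) (by omega)
              · exact hd 2 3 (by decide) (by omega)
              · exact hn 1 4 3 (by decide) (by omega)
              · exact hd 3 6 (by decide) (by omega)
            · omega
          · rcases e13.1 with h | h | h | h | h | h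
            · omega
            · exact hn 3 4 5 (by decide) (by omega)
            · omega
            · exact hn 1 4 2 (by decide) (by omega)
            · rcases e06.1 with h | h | h | h | h | h
              · omega
              · exact hn 3 4 2 (by decide) (by omega)
              · omega
              · omega
              · exact hd 2 6 (by decide) (by omega)
              · exact hd 2 3 (by decide) (by omega)
            · exact hd 2 4 (by decide) (by omega)
          · exact hd 2 4 (by decide) (by omega)
          · rcases e03.1 with h | h | h | h | h | h
            · rcases e12.1 with h | h | h | h | h | h
              · omega
              · omega
              · exact hd 0 2 (by decide) (by omega)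
              · omega
              · exact hn 2 3 4 (by decide) (by omega)
              · omega
            · exact hn 3 6 7 (by decide) (by omega)
            · exact hd 1 3 (by decide) (by omega)
            · exact hd 2 3 (by decide) (by omega)
            · exact hd 3 4 (by decide) (by omega)
            · rcases e06.1 with h | h | h | h | h | h
              · omega
              · exact hn 4 6 3 (by decide) (by omega)
              · rcases e13.1 with h | h | h | h | h | h
                · omega
                · omega
                · omega
                · exact hn 1 6 2 (by decide) (by omega)
                · omega
                · exact hd 0 1 (by decide) (by omega)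
              · omega
              · exact hd 2 6 (by decide) (by omega)
              · exact hd 3 6 (by decide) (by omega)
          · exact hd 0 2 (by decide) (by omega)
      · exact hn 1 6 7 (by decide) (by omega)
      · omega
  · rcases e02.1 with h | h | h | h | h | h
    · rcases e13.1 with h | h | h | h | h | h
      · omega
      · omega
      · rcases e04.1 with h | h | h | h | h | h
        · omega
        · omega
        · omega
        · omega
        · exact hn 3 5 6 (by decide) (by omega)
        · exact hn 3 5 7 (by decide) (by omega)
      · exact hd 0 3 (by decide) (by omega)
      · rcases e06.1 with h | h | h | h | h | h
        · omega
        · omega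
        · omega
        · exact hn 3 5 4 (by decide) (by omega)
        · omega
        · exact hn 3 5 7 (by decide) (by omega)
      · rcases e03.1 with h | h | h | h | h | h
        · exact hd 2 3 (by decide) (by omega)
        · rcases e12.1 with h | h | h | h | h | h
          · omega
          · omega
          · exact hn 0 7 4 (by decide) (by omega)
          · omega
          · exact hn 0 7 6 (by decide) (by omega)
          · omega
        · rcases e06.1 with h | h | h | h | h | h
          · exact hd 2 6 (by decide) (by omega)
          · rcases e12.1 with h | h | h | h | h | h
            · omega
            · exact hn 2 5 4 (by decide) (by omega)
            · exact hn 1 6 3 (by decide) (by omega)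
            · omega
            · omega
            · exact hd 1 4 (by decide) (by omega)
          · exact hn 5 6 7 (by decide) (by omega)
          · exact hd 3 6 (by decide) (by omega)
          · exact hd 1 6 (by decide) (by omega)
          · exact hn 2 3 6 (by decide) (by omega)
        · exact hd 1 3 (by decide) (by omega)
        · exact hn 2 6 7 (by decide) (by omega)
        · omega
    · rcases e13.1 with h | h | h | h | h | h
      · omega
      · omega
      · exact hn 2 5 4 (by decide) (by omega)
      · omega
      · exact hn 2 5 6 (by decide) (by omega)
      · exact hn 2 5 7 (by decide) (by omega)
    · rcases e03.1 with h | h | h | h | h | h
      · rcases e12.1 with h | h | h | h | h | h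
        · omega
        · omega
        · omega
        · exact hd 0 2 (by decide) (by omega)
        · exact hn 3 4 6 (by decide) (by omega)
        · exact hn 3 4 7 (by decide) (by omega)
      · rcases e12.1 with h | h | h | h | h | h
        · omega
        · omega
        · exact hd 0 1 (by decide) (by omega)
        · omega
        · exact hn 3 5 6 (by decide) (by omega)
        · exact hn 3 5 7 (by decide) (by omega)
      · exact hd 2 3 (by decide) (by omega)
      · exact hd 1 3 (by decide) (by omega)
      · rcases e04.1 with h | h | h | h | h | h
        · rcases e13.1 with h | h | h | h | h | h
          · omega
          · omega
          · omega
          · exact hd 0 3 (by decide) (by omega)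
          · omega
          · exact hn 4 6 7 (by decide) (by omega)
        · omega
        · rcases e13.1 with h | h | h | h | h | h
          · omega
          · omega
          · omega
          · omega
          · exact hd 0 1 (by decide) (by omega)
          · exact hn 4 5 7 (by decide) (by omega)
        · exact hd 1 4 (by decide) (by omega)
        · exact hd 3 4 (by decide) (by omega)
        · rcases e06.1 with h | h | h | h | h | h
          · rcases e12.1 with h | h | h | h | h | h
            · omega
            · omega
            · omega
            · exact hd 0 2 (by decide) (by omega)
            · omega
            · omega
          · rcases e12.1 with h | h | h | h | h | h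
            · omega
            · omega
            · exact hd 0 1 (by decide) (by omega)
            · omega
            · omega
            · exact hn 1 6 4 (by decide) (by omega)
          · omega
          · exact hd 2 6 (by decide) (by omega)
          · exact hd 1 6 (by decide) (by omega)
          · exact hd 2 3 (by decide) (by omega)
      · rcases e04.1 with h | h | h | h | h | h
        · rcases e13.1 with h | h | h | h | h | h
          · omega
          · omega
          · omega
          · exact hd 0 3 (by decide) (by omega)
          · exact hn 4 7 6 (by decide) (by omega)
          · omega
        · omega
        · rcases e13.1 with h | h | h | h | h | h
          · omega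
          · omega
          · omega
          · omega
          · exact hn 4 5 6 (by decide) (by omega)
          · exact hd 0 1 (by decide) (by omega)
        · exact hd 1 4 (by decide) (by omega)
        · rcases e06.1 with h | h | h | h | h | h
          · rcases e12.1 with h | h | h | h | h | h
            · omega
            · exact hn 1 4 7 (by decide) (by omega)
            · omega
            · exact hd 0 2 (by decide) (by omega)
            · omega
            · exact hn 2 6 3 (by decide) (by omega)
          · omega
          · rcases e13.1 with h | h | h | h | h | h
            · omega
            · omega
            · omega
            · omega
            · omega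
            · exact hd 0 1 (by decide) (by omega)
          · omega
          · exact hd 1 6 (by decide) (by omega)
          · exact hd 3 6 (by decide) (by omega)
        · exact hd 3 4 (by decide) (by omega)
    · exact hd 1 2 (by decide) (by omega)
    · rcases e03.1 with h | h | h | h | h | h
      · rcases e12.1 with h | h | h | h | h | h
        · omega
        · omega
        · exact hn 3 6 4 (by decide) (by omega)
        · exact hd 0 2 (by decide) (by omega)
        · omega
        · exact hn 3 6 7 (by decide) (by omega)
      · rcases e12.1 with h | h | h | h | h | h
        · omega
        · omega
        · exact hn 3 5 4 (by decide) (by omega)
        · omega
        · exact hd 0 1 (by decide) (by omega)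
        · exact hn 3 5 7 (by decide) (by omega)
      · rcases e24.1 with h | h | h | h | h | h
        · omega
        · exact hn 3 6 1 (by decide) (by omega)
        · omega
        · exact hn 2 3 1 (by decide) (by omega)
        · omega
        · exact hn 3 6 7 (by decide) (by omega)
      · exact hd 1 3 (by decide) (by omega)
      · exact hd 2 3 (by decide) (by omega)
      · rcases e04.1 with h | h | h | h | h | h
        · rcases e12.1 with h | h | h | h | h | h
          · omega
          · exact hn 1 6 7 (by decide) (by omega)
          · omega
          · exact hd 0 2 (by decide) (by omega)
          · omega
          · exact hn 4 6 7 (by decide) (by omega)
        · rcases e12.1 with h | h | h | h | h | h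
          · omega
          · exact hn 1 6 7 (by decide) (by omega)
          · omega
          · omega
          · exact hd 0 1 (by decide) (by omega)
          · exact hn 1 4 3 (by decide) (by omega)
        · rcases e13.1 with h | h | h | h | h | h
          · omega
          · exact hn 1 7 6 (by decide) (by omega)
          · omega
          · omega
          · exact hn 1 4 2 (by decide) (by omega)
          · exact hd 0 1 (by decide) (by omega)
        · exact hd 1 4 (by decide) (by omega)
        · exact hd 2 4 (by decide) (by omega)
        · exact hd 3 4 (by decide) (by omega)
    · rcases e03.1 with h | h | h | h | h | h
      · rcases e12.1 with h | h | h | h | h | h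
        · omega
        · omega
        · exact hn 3 7 4 (by decide) (by omega)
        · exact hd 0 2 (by decide) (by omega)
        · exact hn 3 7 6 (by decide) (by omega)
        · omega
      · rcases e12.1 with h | h | h | h | h | h
        · omega
        · omega
        · exact hn 3 5 4 (by decide) (by omega)
        · omega
        · exact hn 3 5 6 (by decide) (by omega)
        · exact hd 0 1 (by decide) (by omega)
      · rcases e24.1 with h | h | h | h | h | h
        · omega
        · exact hn 3 7 1 (by decide) (by omega)
        · omega
        · exact hn 2 3 1 (by decide) (by omega)
        · exact hn 3 7 6 (by decide) (by omega)
        · omega
      · exact hd 1 3 (by decide) (by omega)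
      · rcases e04.1 with h | h | h | h | h | h
        · rcases e12.1 with h | h | h | h | h | h
          · omega
          · exact hn 1 7 6 (by decide) (by omega)
          · omega
          · exact hd 0 2 (by decide) (by omega)
          · exact hn 4 7 6 (by decide) (by omega)
          · omega
        · rcases e12.1 with h | h | h | h | h | h
          · omega
          · exact hn 1 7 6 (by decide) (by omega)
          · omega
          · omega
          · exact hn 1 4 3 (by decide) (by omega)
          · exact hd 0 1 (by decide) (by omega)
        · rcases e13.1 with h | h | h | h | h | h
          · omega
          · exact hn 1 6 7 (by decide) (by omega)
          · omega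
          · omega
          · exact hd 0 1 (by decide) (by omega)
          · exact hn 1 4 2 (by decide) (by omega)
        · exact hd 1 4 (by decide) (by omega)
        · exact hd 3 4 (by decide) (by omega)
        · exact hd 2 4 (by decide) (by omega)
      · exact hd 2 3 (by decide) (by omega)
  · rcases e02.1 with h | h | h | h | h | h
    · rcases e13.1 with h | h | h | h | h | h
      · omega
      · omega
      · rcases e04.1 with h | h | h | h | h | h
        · omega
        · omega
        · omega
        · exact hn 3 6 5 (by decide) (by omega)
        · omega
        · exact hn 3 6 7 (by decide) (by omega)
      · rcases e03.1 with h | h | h | h | h | h
        · exact hd 2 3 (by decide) (by omega)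
        · rcases e12.1 with h | h | h | h | h | h
          · omega
          · omega
          · exact hn 0 5 4 (by decide) (by omega)
          · omega
          · omega
          · exact hn 0 5 7 (by decide) (by omega)
        · rcases e15.1 with h | h | h | h | h | h
          · omega
          · omega
          · omega
          · omega
          · omega
          · rcases e04.1 with h | h | h | h | h | h
            · exact hd 2 4 (by decide) (by omega)
            · rcases e06.1 with h | h | h | h | h | h
              · omega
              · omega
              · omega
              · omega
              · exact hn 2 3 6 (by decide) (by omega)
              · omega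
            · omega
            · exact hd 0 2 (by decide) (by omega)
            · exact hd 1 4 (by decide) (by omega)
            · omega
        · omega
        · exact hd 1 3 (by decide) (by omega)
        · exact hn 2 7 5 (by decide) (by omega)
      · exact hd 0 3 (by decide) (by omega)
      · rcases e03.1 with h | h | h | h | h | h
        · exact hd 2 3 (by decide) (by omega)
        · rcases e12.1 with h | h | h | h | h | h
          · omega
          · omega
          · exact hn 0 7 4 (by decide) (by omega)
          · exact hn 0 7 5 (by decide) (by omega)
          · omega
          · omega
        · rcases e15.1 with h | h | h | h | h | h
          · omega
          · omega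
          · exact hn 5 6 4 (by decide) (by omega)
          · exact hn 2 5 3 (by decide) (by omega)
          · exact hd 0 5 (by decide) (by omega)
          · exact hd 3 5 (by decide) (by omega)
        · exact hn 2 5 7 (by decide) (by omega)
        · exact hd 1 3 (by decide) (by omega)
        · omega
    · rcases e13.1 with h | h | h | h | h | h
      · omega
      · omega
      · exact hn 2 6 4 (by decide) (by omega)
      · exact hn 2 6 5 (by decide) (by omega)
      · omega
      · exact hn 2 6 7 (by decide) (by omega)
    · rcases e03.1 with h | h | h | h | h | h
      · rcases e12.1 with h | h | h | h | h | h
        · omega
        · omega
        · omega
        · exact hn 3 4 5 (by decide) (by omega)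
        · exact hd 0 2 (by decide) (by omega)
        · exact hn 3 4 7 (by decide) (by omega)
      · rcases e12.1 with h | h | h | h | h | h
        · omega
        · omega
        · exact hd 0 1 (by decide) (by omega)
        · exact hn 3 6 5 (by decide) (by omega)
        · omega
        · exact hn 3 6 7 (by decide) (by omega)
      · exact hd 2 3 (by decide) (by omega)
      · rcases e15.1 with h | h | h | h | h | h
        · omega
        · exact hn 3 6 2 (by decide) (by omega)
        · omega
        · exact hn 3 6 4 (by decide) (by omega)
        · omega
        · exact hn 3 6 7 (by decide) (by omega)
      · exact hd 1 3 (by decide) (by omega)
      · rcases e04.1 with h | h | h | h | h | h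
        · rcases e13.1 with h | h | h | h | h | h
          · omega
          · omega
          · omega
          · exact hn 4 7 5 (by decide) (by omega)
          · exact hd 0 3 (by decide) (by omega)
          · omega
        · omega
        · rcases e13.1 with h | h | h | h | h | h
          · omega
          · omega
          · omega
          · exact hn 4 6 5 (by decide) (by omega)
          · omega
          · exact hd 0 1 (by decide) (by omega)
        · rcases e15.1 with h | h | h | h | h | h
          · omega
          · omega
          · exact hn 4 6 3 (by decide) (by omega)
          · omega
          · omega
          · exact hn 1 4 3 (by decide) (by omega)
        · exact hd 1 4 (by decide) (by omega)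
        · exact hd 3 4 (by decide) (by omega)
    · rcases e15.1 with h | h | h | h | h | h
      · omega
      · omega
      · exact hn 2 6 3 (by decide) (by omega)
      · exact hn 2 6 4 (by decide) (by omega)
      · omega
      · exact hn 2 6 7 (by decide) (by omega)
    · exact hd 1 2 (by decide) (by omega)
    · rcases e03.1 with h | h | h | h | h | h
      · rcases e12.1 with h | h | h | h | h | h
        · omega
        · omega
        · exact hn 3 7 4 (by decide) (by omega)
        · exact hn 3 7 5 (by decide) (by omega)
        · exact hd 0 2 (by decide) (by omega)
        · omega
      · rcases e12.1 with h | h | h | h | h | h
        · omega
        · omega
        · exact hn 3 6 4 (by decide) (by omega)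
        · exact hn 3 6 5 (by decide) (by omega)
        · omega
        · exact hd 0 1 (by decide) (by omega)
      · rcases e24.1 with h | h | h | h | h | h
        · omega
        · exact hn 3 7 1 (by decide) (by omega)
        · omega
        · exact hn 3 7 5 (by decide) (by omega)
        · exact hn 2 3 1 (by decide) (by omega)
        · omega
      · rcases e15.1 with h | h | h | h | h | h
        · omega
        · exact hn 3 6 2 (by decide) (by omega)
        · omega
        · exact hn 3 6 4 (by decide) (by omega)
        · omega
        · exact hn 3 6 7 (by decide) (by omega)
      · exact hd 1 3 (by decide) (by omega)
      · exact hd 2 3 (by decide) (by omega)
  · rcases e02.1 with h | h | h | h | h | h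
    · rcases e13.1 with h | h | h | h | h | h
      · omega
      · omega
      · rcases e04.1 with h | h | h | h | h | h
        · omega
        · omega
        · omega
        · exact hn 3 7 5 (by decide) (by omega)
        · exact hn 3 7 6 (by decide) (by omega)
        · omega
      · rcases e03.1 with h | h | h | h | h | h
        · exact hd 2 3 (by decide) (by omega)
        · rcases e12.1 with h | h | h | h | h | h
          · omega
          · omega
          · exact hn 0 5 4 (by decide) (by omega)
          · omega
          · exact hn 0 5 6 (by decide) (by omega)
          · omega
        · rcases e06.1 with h | h | h | h | h | h
          · exact hd 2 6 (by decide) (by omega)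
          · rcases e12.1 with h | h | h | h | h | h
            · omega
            · exact hn 2 7 4 (by decide) (by omega)
            · exact hn 1 6 3 (by decide) (by omega)
            · exact hd 1 4 (by decide) (by omega)
            · omega
            · omega
          · exact hn 6 7 5 (by decide) (by omega)
          · exact hd 3 6 (by decide) (by omega)
          · exact hn 2 3 6 (by decide) (by omega)
          · exact hd 1 6 (by decide) (by omega)
        · omega
        · exact hn 2 6 5 (by decide) (by omega)
        · exact hd 1 3 (by decide) (by omega)
      · rcases e06.1 with h | h | h | h | h | h
        · omega
        · omega
        · omega
        · exact hn 3 7 4 (by decide) (by omega)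
        · exact hn 3 7 5 (by decide) (by omega)
        · omega
      · exact hd 0 3 (by decide) (by omega)
    · rcases e13.1 with h | h | h | h | h | h
      · omega
      · omega
      · exact hn 2 7 4 (by decide) (by omega)
      · exact hn 2 7 5 (by decide) (by omega)
      · exact hn 2 7 6 (by decide) (by omega)
      · omega
    · rcases e03.1 with h | h | h | h | h | h
      · rcases e12.1 with h | h | h | h | h | h
        · omega
        · omega
        · omega
        · exact hn 3 4 5 (by decide) (by omega)
        · exact hn 3 4 6 (by decide) (by omega)
        · exact hd 0 2 (by decide) (by omega)
      · rcases e12.1 with h | h | h | h | h | h
        · omega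
        · omega
        · exact hd 0 1 (by decide) (by omega)
        · exact hn 3 7 5 (by decide) (by omega)
        · exact hn 3 7 6 (by decide) (by omega)
        · omega
      · exact hd 2 3 (by decide) (by omega)
      · rcases e15.1 with h | h | h | h | h | h
        · omega
        · exact hn 3 7 2 (by decide) (by omega)
        · omega
        · exact hn 3 7 4 (by decide) (by omega)
        · exact hn 3 7 6 (by decide) (by omega)
        · omega
      · rcases e04.1 with h | h | h | h | h | h
        · rcases e13.1 with h | h | h | h | h | h
          · omega
          · omega
          · omega
          · exact hn 4 6 5 (by decide) (by omega)
          · omega
          · exact hd 0 3 (by decide) (by omega)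
        · omega
        · rcases e13.1 with h | h | h | h | h | h
          · omega
          · omega
          · omega
          · exact hn 4 7 5 (by decide) (by omega)
          · exact hd 0 1 (by decide) (by omega)
          · omega
        · rcases e15.1 with h | h | h | h | h | h
          · omega
          · omega
          · exact hn 4 7 3 (by decide) (by omega)
          · omega
          · exact hn 1 4 3 (by decide) (by omega)
          · omega
        · exact hd 3 4 (by decide) (by omega)
        · exact hd 1 4 (by decide) (by omega)
      · exact hd 1 3 (by decide) (by omega)
    · rcases e15.1 with h | h | h | h | h | h
      · omega
      · omega
      · exact hn 2 7 3 (by decide) (by omega)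
      · exact hn 2 7 4 (by decide) (by omega)
      · exact hn 2 7 6 (by decide) (by omega)
      · omega
    · rcases e03.1 with h | h | h | h | h | h
      · rcases e12.1 with h | h | h | h | h | h
        · omega
        · omega
        · exact hn 3 6 4 (by decide) (by omega)
        · exact hn 3 6 5 (by decide) (by omega)
        · omega
        · exact hd 0 2 (by decide) (by omega)
      · rcases e12.1 with h | h | h | h | h | h
        · omega
        · omega
        · exact hn 3 7 4 (by decide) (by omega)
        · exact hn 3 7 5 (by decide) (by omega)
        · exact hd 0 1 (by decide) (by omega)
        · omega
      · rcases e24.1 with h | h | h | h | h | h
        · omega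
        · exact hn 3 6 1 (by decide) (by omega)
        · omega
        · exact hn 3 6 5 (by decide) (by omega)
        · omega
        · exact hn 2 3 1 (by decide) (by omega)
      · rcases e15.1 with h | h | h | h | h | h
        · omega
        · exact hn 3 7 2 (by decide) (by omega)
        · omega
        · exact hn 3 7 4 (by decide) (by omega)
        · exact hn 3 7 6 (by decide) (by omega)
        · omega
      · exact hd 2 3 (by decide) (by omega)
      · exact hd 1 3 (by decide) (by omega)
    · exact hd 1 2 (by decide) (by omega)

end Pool.Agent.H.MP_520ea7_co
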